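import Pool.Agent.Lib.MP_d77862_gt.MainOr
import Pool.Agent.Lib.MP_d77862_gt.Corner2

/-!
Disproof of Q1 with `k = 2`. The example is an orientable Dehn filling of the bundle with fibre the
four times punctured sphere and monodromy induced by `x ↦ (1 + √2)² x + √2` on `ℤ[√2]`.
-/

namespace Pool.Agent.Results.MP_d77862_gt.NotAccumulatedOr

open Pool.Agent.Zig

theorem result : ∃ (M : Type) (_ : TopologicalSpace M) (φ : Flow ℝ M)
    (τ : Fin 2 → ℂ × Circle → M), Closed3 M ∧ Orient M ∧ PA φ ∧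
      (∃ x, DenseRange fun t => φ t x) ∧ Tubes τ ∧ Along φ τ ∧
      ∀ g : Fin 2 → Matrix (Fin 2) (Fin 2) ℤ, (∀ i, (g i).det ≠ 0 ∧ g i 1 1 ≠ 0) →
        ∀ Z : Set (Fin 2 → ℝ), IsClosed Z → slopes g (Realised φ τ) ⊆ Z →
          (∃ r ∈ slopes g (S1S2 τ), r ∈ Z ∧ ¬ AccPt r (Filter.principal (corners Z))) ∧
          (∃ r, AccPt r (Filter.principal
              {p | p ∈ Z ∧ ∃ U, IsOpen U ∧ p ∈ U ∧ p ∉ hull (Z \ U)}) ∧
            r ∉ slopes g (S1S2 τ)) ∧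
          (hull Z ⊆ Z → ∀ F : Set (Set (Fin 2 → ℝ)), (∀ U ∈ F, IsOpen U) →
            {r | AccPt r (Filter.principal {p | p ∈ Z ∧ ∃ U ∈ F, p ∈ U ∧ p ∉ hull (Z \ U)})} ≠
              slopes g (S1S2 τ)) := by
  obtain ⟨M, _, φ, τ, h1, h0, h2, h3, h4, h5, h6, h7⟩ := exists_example_or
  refine ⟨M, inferInstance, φ, τ, h1, h0, h2, h3, h4, h5, fun g hg Z hZ hsub => ?_⟩
  obtain ⟨η, hη, hcross⟩ := exists_cross g hg h7 hZ hsub
  have hr : (fun j => (g j 0 1 : ℝ) / (g j 1 1 : ℝ)) ∈ slopes g (S1S2 τ) :=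
    ⟨0, 1, h6, fun i => ⟨by simpa using isCoprime_one_right, by simpa using (hg i).2, by simp⟩⟩
  have hc : ∀ i, Function.update (fun j => (g j 0 1 : ℝ) / (g j 1 1 : ℝ)) i
      ((g i 0 1 : ℝ) / (g i 1 1 : ℝ) + η) ∈ Z ∧
      Function.update (fun j => (g j 0 1 : ℝ) / (g j 1 1 : ℝ)) i
        ((g i 0 1 : ℝ) / (g i 1 1 : ℝ) - η) ∈ Z := fun i => by
    refine ⟨hcross i η (abs_of_pos hη).le, ?_⟩
    have := hcross i (-η) (by rw [abs_neg]; exact (abs_of_pos hη).le)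
    simpa [sub_eq_add_neg] using this
  refine ⟨⟨_, hr, ?_, not_accPt_corners hη hc⟩, ?_,
    fun hC F hF => accPt_family_ne g (S1S2 τ) hη hr hc hC hF⟩
  · have := hcross 0 0 (by simpa using hη.le)
    simpa using this
  · obtain ⟨x, hx, hx'⟩ := exists_accPt_not_slope g (S1S2 τ) hη (hcross 0)
    refine ⟨x, ?_, hx'⟩
    have : {p | p ∈ Z ∧ ∃ U, IsOpen U ∧ p ∈ U ∧ p ∉ hull (Z \ U)} = Z := by
      ext p
      refine ⟨fun h => h.1, fun h => ⟨h, Set.univ, isOpen_univ, trivial, ?_⟩⟩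
      rw [Set.sdiff_univ, hull_empty]
      exact fun h => h
    rw [this]
    exact hx

end Pool.Agent.Results.MP_d77862_gt.NotAccumulatedOr
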